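import Pool.Agent.T6.H3.Room.Glue

/-!
# A Room square of side 9 with a complement, which is not skew for any of its symbols
-/

set_option autoImplicit false

namespace Pool.Agent.T6.H3.Room

/-- decoding of a table: `0` is an empty cell, `10 x + y` is the pair `{x, y}`, `x < y`. -/
def dec (T : List ℕ) (i j : Fin 9) : Option (Fin 10 × Fin 10) :=
  if T.getD (9 * i.1 + j.1) 0 = 0 then none
  else some (Fin.ofNat 10 (T.getD (9 * i.1 + j.1) 0 / 10), Fin.ofNat 10 (T.getD (9 * i.1 + j.1) 0 % 10))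

/-- the array of a table. -/
def arr (T : List ℕ) : Arr 9 := fun i j => (dec T i j).map fun c => s(c.1, c.2)

def loc (L : List ℕ) (x y : Fin 10) : Fin 9 × Fin 9 :=
  (Fin.ofNat 9 (L.getD (10 * x.1 + y.1) 0 / 9), Fin.ofNat 9 (L.getD (10 * x.1 + y.1) 0 % 9))

def rc (L : List ℕ) (i : Fin 9) (x : Fin 10) : Fin 9 := Fin.ofNat 9 (L.getD (10 * i.1 + x.1) 0)

def tabA : List ℕ :=
  [1, 68, 0, 59, 0, 0, 0, 27, 34, 0, 2, 0, 37, 48, 15, 0, 69, 0, 46, 0, 3, 18, 29, 0, 0, 0, 57,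
   39, 0, 0, 4, 17, 0, 56, 0, 28, 78, 0, 49, 0, 5, 23, 0, 0, 16, 0, 79, 58, 0, 0, 6, 24, 13, 0, 0,
   0, 12, 0, 36, 89, 7, 45, 0, 0, 35, 0, 26, 0, 47, 19, 8, 0, 25, 14, 67, 0, 0, 0, 38, 0, 9]

def locA : List ℕ :=
  [0, 0, 10, 20, 30, 40, 50, 60, 70, 80, 0, 0, 56, 52, 73, 14, 44, 31, 21, 69, 0, 0, 0, 41, 51,
   72, 66, 7, 35, 22, 0, 0, 0, 0, 8, 64, 58, 12, 78, 27, 0, 0, 0, 0, 0, 61, 18, 68, 13, 38, 0, 0,
   0, 0, 0, 0, 33, 26, 47, 3, 0, 0, 0, 0, 0, 0, 0, 74, 1, 16, 0, 0, 0, 0, 0, 0, 0, 0, 36, 46, 0,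
   0, 0, 0, 0, 0, 0, 0, 0, 59, 0, 0, 0, 0, 0, 0, 0, 0, 0, 0]

def rowA : List ℕ :=
  [0, 0, 7, 8, 8, 3, 1, 7, 1, 3, 1, 5, 1, 3, 4, 5, 7, 3, 4, 7, 2, 3, 4, 2, 0, 8, 0, 8, 3, 4, 3, 4,
   8, 0, 3, 6, 6, 4, 8, 0, 4, 8, 5, 5, 2, 4, 8, 0, 0, 2, 5, 7, 6, 7, 6, 2, 5, 1, 2, 1, 6, 2, 2, 4,
   7, 7, 4, 6, 5, 5, 7, 6, 3, 1, 5, 1, 3, 5, 7, 6, 8, 1, 0, 6, 1, 0, 2, 2, 6, 8]

def colA : List ℕ :=
  [0, 0, 8, 3, 2, 8, 2, 4, 4, 3, 1, 8, 1, 7, 8, 7, 0, 5, 0, 5, 2, 6, 6, 2, 4, 5, 8, 8, 5, 4, 3, 2,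
   7, 1, 3, 0, 7, 1, 2, 0, 4, 3, 2, 6, 1, 4, 6, 3, 1, 2, 5, 1, 4, 4, 7, 1, 5, 7, 6, 6, 6, 7, 5, 8,
   5, 3, 3, 6, 8, 7, 7, 5, 0, 5, 6, 6, 1, 0, 7, 1, 8, 4, 3, 0, 0, 2, 4, 2, 3, 8]

def tabC : List ℕ :=
  [1, 0, 68, 0, 79, 23, 45, 0, 0, 67, 2, 15, 0, 0, 0, 39, 0, 48, 0, 46, 3, 0, 0, 19, 28, 57, 0, 0,
   13, 27, 4, 0, 58, 0, 69, 0, 0, 78, 0, 29, 5, 0, 16, 34, 0, 89, 0, 0, 37, 14, 6, 0, 0, 25, 24,
   59, 0, 18, 0, 0, 7, 0, 36, 35, 0, 49, 0, 26, 0, 0, 8, 17, 0, 0, 0, 56, 38, 47, 0, 12, 9]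

def locC : List ℕ :=
  [0, 0, 10, 20, 30, 40, 50, 60, 70, 80, 0, 0, 79, 28, 49, 11, 42, 71, 57, 23, 0, 0, 0, 5, 54, 53,
   67, 29, 24, 39, 0, 0, 0, 0, 43, 63, 62, 48, 76, 15, 0, 0, 0, 0, 0, 6, 19, 77, 17, 65, 0, 0, 0,
   0, 0, 0, 75, 25, 32, 55, 0, 0, 0, 0, 0, 0, 0, 9, 2, 34, 0, 0, 0, 0, 0, 0, 0, 0, 37, 4, 0, 0, 0,
   0, 0, 0, 0, 0, 0, 45, 0, 0, 0, 0, 0, 0, 0, 0, 0, 0]

def rowC : List ℕ :=
  [0, 0, 5, 5, 6, 6, 2, 4, 2, 4, 1, 2, 1, 6, 8, 2, 0, 0, 8, 6, 2, 5, 6, 2, 1, 7, 1, 7, 6, 5, 3, 1,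
   2, 1, 3, 5, 7, 2, 5, 7, 4, 6, 3, 7, 7, 4, 6, 1, 1, 3, 5, 4, 8, 3, 4, 8, 5, 3, 0, 0, 6, 3, 0, 8,
   0, 1, 8, 6, 3, 1, 7, 8, 4, 0, 2, 0, 4, 8, 7, 2, 8, 7, 7, 4, 5, 3, 3, 5, 4, 8]

def colC : List ℕ :=
  [0, 0, 6, 7, 6, 7, 1, 1, 5, 5, 1, 3, 1, 3, 2, 6, 2, 4, 4, 6, 2, 1, 3, 2, 7, 1, 0, 3, 0, 7, 3, 6,
   4, 5, 3, 8, 8, 5, 6, 4, 4, 5, 7, 8, 5, 4, 7, 0, 8, 0, 5, 2, 0, 0, 8, 3, 5, 8, 3, 2, 6, 4, 2, 1,
   0, 0, 4, 6, 2, 1, 7, 8, 8, 4, 4, 2, 3, 2, 7, 3, 8, 7, 5, 6, 1, 5, 6, 7, 1, 8]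

/-- witnesses: row `i`, row `j`, column of `x` in row `i`, column of `x` in row `j`. -/
def wit : List (Fin 9 × Fin 9 × Fin 9 × Fin 9) :=
  [(0, 3, 0, 3), (0, 1, 0, 5), (0, 1, 7, 1), (0, 3, 8, 0), (0, 1, 8, 4), (0, 2, 3, 8),
   (0, 1, 1, 7), (0, 1, 7, 3), (0, 6, 1, 5), (0, 1, 3, 7)]

def ok2 (T L R C : List ℕ) (i j : Fin 9) : Bool :=
  match dec T i j with
  | none => true
  | some c => decide (c.1 < c.2) && decide (loc L c.1 c.2 = (i, j)) && decide (rc R i c.1 = j) &&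
      decide (rc R i c.2 = j) && decide (rc C j c.1 = i) && decide (rc C j c.2 = i)

def has (T : List ℕ) (i j : Fin 9) (x : Fin 10) : Bool :=
  match dec T i j with
  | none => false
  | some c => decide (x = c.1) || decide (x = c.2)

theorem has_iff (T : List ℕ) (i j : Fin 9) (x : Fin 10) :
    has T i j x = true ↔ ∃ p, arr T i j = some p ∧ x ∈ p := by
  unfold has arr
  cases h : dec T i j with
  | none => simp
  | some c => simp [Sym2.mem_iff]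

theorem room_of_check (T L R C : List ℕ)
    (h1 : ∀ x y : Fin 10, x < y → dec T (loc L x y).1 (loc L x y).2 = some (x, y))
    (h2 : ∀ i j, ok2 T L R C i j = true) (h3 : ∀ i x, has T i (rc R i x) x = true)
    (h4 : ∀ j x, has T (rc C j x) j x = true) : IsRoom (arr T) := by
  have h2' : ∀ i j c, dec T i j = some c → c.1 < c.2 ∧ loc L c.1 c.2 = (i, j) ∧
      rc R i c.1 = j ∧ rc R i c.2 = j ∧ rc C j c.1 = i ∧ rc C j c.2 = i := by
    intro i j c hc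
    have h := h2 i j
    unfold ok2 at h
    rw [hc] at h
    simp only [Bool.and_eq_true, decide_eq_true_eq] at h
    tauto
  refine ⟨by decide, ?_, ?_, ?_, ?_⟩
  · intro i j p hp
    unfold arr at hp
    obtain ⟨c, hc, rfl⟩ := Option.map_eq_some_iff.1 hp
    rw [Sym2.mk_isDiag_iff]
    exact (h2' i j c hc).1.ne
  · intro x y hxy
    have key : ∀ x y : Fin 10, x < y →
        ∃! c : Fin 9 × Fin 9, arr T c.1 c.2 = some s(x, y) := by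
      intro x y hxy
      refine ⟨loc L x y, ?_, ?_⟩
      · change arr T (loc L x y).1 (loc L x y).2 = _
        unfold arr
        rw [h1 x y hxy]
        rfl
      · rintro ⟨i, j⟩ hij
        change arr T i j = _ at hij
        unfold arr at hij
        obtain ⟨c, hc, hc2⟩ := Option.map_eq_some_iff.1 hij
        obtain ⟨e1, e2, -⟩ := h2' i j c hc
        rcases Sym2.eq_iff.1 hc2 with ⟨e3, e4⟩ | ⟨e3, e4⟩
        · rw [← e2, e3, e4]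
        · rw [e3, e4] at e1
          exact absurd e1 hxy.not_gt
    rcases lt_or_gt_of_ne hxy with h | h
    · exact key x y h
    · have := key y x h
      rwa [Sym2.eq_swap] at this
  · intro i x
    refine ⟨rc R i x, (has_iff _ _ _ _).1 (h3 i x), ?_⟩
    intro j hj
    rw [← has_iff] at hj
    unfold has at hj
    cases hc : dec T i j with
    | none => rw [hc] at hj; simp at hj
    | some c =>
      rw [hc] at hj
      simp only [Bool.or_eq_true, decide_eq_true_eq] at hj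
      obtain ⟨-, -, e3, e4, -, -⟩ := h2' i j c hc
      rcases hj with rfl | rfl
      · exact e3.symm
      · exact e4.symm
  · intro j x
    refine ⟨rc C j x, (has_iff _ _ _ _).1 (h4 j x), ?_⟩
    intro i hj
    rw [← has_iff] at hj
    unfold has at hj
    cases hc : dec T i j with
    | none => rw [hc] at hj; simp at hj
    | some c =>
      rw [hc] at hj
      simp only [Bool.or_eq_true, decide_eq_true_eq] at hj
      obtain ⟨-, -, -, -, e5, e6⟩ := h2' i j c hc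
      rcases hj with rfl | rfl
      · exact e5.symm
      · exact e6.symm

/-- the square -/
def sqA : Arr 9 := arr tabA

/-- the complementary square -/
def sqC : Arr 9 := arr tabC

theorem room_A : IsRoom sqA :=
  room_of_check tabA locA rowA colA (by decide +kernel) (by decide +kernel) (by decide +kernel)
    (by decide +kernel)

theorem room_C : IsRoom sqC :=
  room_of_check tabC locC rowC colC (by decide +kernel) (by decide +kernel) (by decide +kernel)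
    (by decide +kernel)

theorem std_of (T : List ℕ) (h : ∀ i : Fin 9, dec T i i = some (0, i.succ)) :
    Standardized (arr T) := by
  intro i
  unfold arr
  rw [h i]
  rfl

theorem std_A : Standardized sqA := std_of tabA (by decide +kernel)

theorem std_C : Standardized sqC := std_of tabC (by decide +kernel)

theorem isSome_arr (T : List ℕ) (i j : Fin 9) : (arr T i j).isSome = (dec T i j).isSome := by
  unfold arr
  rw [Option.isSome_map]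

theorem compl_AC : Complementary sqA sqC := by
  have h : ∀ i j : Fin 9, i ≠ j → (dec tabA i j).isSome = !(dec tabC i j).isSome := by
    decide +kernel
  intro i j hij
  unfold sqA sqC
  rw [isSome_arr, isSome_arr, h i j hij]
  simp

theorem nonskew_A : ∀ x, NonSkewAt sqA x := by
  have h : ∀ x : Fin 10, (wit.getD x.1 (0, 0, 0, 0)).1 ≠ (wit.getD x.1 (0, 0, 0, 0)).2.1 ∧
      has tabA (wit.getD x.1 (0, 0, 0, 0)).1 (wit.getD x.1 (0, 0, 0, 0)).2.2.1 x = true ∧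
      has tabA (wit.getD x.1 (0, 0, 0, 0)).2.1 (wit.getD x.1 (0, 0, 0, 0)).2.2.2 x = true ∧
      (dec tabA (wit.getD x.1 (0, 0, 0, 0)).1 (wit.getD x.1 (0, 0, 0, 0)).2.2.2).isSome =
      (dec tabA (wit.getD x.1 (0, 0, 0, 0)).2.1 (wit.getD x.1 (0, 0, 0, 0)).2.2.1).isSome := by
    decide +kernel
  intro x
  obtain ⟨h1, h2, h3, h4⟩ := h x
  refine ⟨_, _, _, _, h1, (has_iff _ _ _ _).1 h2, (has_iff _ _ _ _).1 h3, ?_⟩
  unfold sqA
  rw [isSome_arr, isSome_arr, h4]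

end Pool.Agent.T6.H3.Room
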