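import Mathlib

/-!
# Room squares

Definitions for `MP_b53726_co`.
-/

set_option autoImplicit false

namespace Pool.Agent.T6.H3.Room

/-- An `r × r` array whose cells are empty (`none`) or hold an unordered pair of elements of
`{0, 1, …, r}`. The rows and columns are `Fin r`; the row or column `i` of the problem
(`1 ≤ i ≤ r`) is the element `i - 1` of `Fin r`. -/
abbrev Arr (r : ℕ) := Fin r → Fin r → Option (Sym2 (Fin (r + 1)))

/-- `A` is a Room square of side `r`: `r` is odd, the pairs are pairs of distinct elements, each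
unordered pair of distinct elements lies in exactly one cell, and each element lies exactly once
in every row and every column. -/
structure IsRoom {r : ℕ} (A : Arr r) : Prop where
  odd : Odd r
  distinct : ∀ i j p, A i j = some p → ¬ p.IsDiag
  pair : ∀ x y : Fin (r + 1), x ≠ y → ∃! c : Fin r × Fin r, A c.1 c.2 = some s(x, y)
  row : ∀ (i : Fin r) (x : Fin (r + 1)), ∃! j, ∃ p, A i j = some p ∧ x ∈ p
  col : ∀ (j : Fin r) (x : Fin (r + 1)), ∃! i, ∃ p, A i j = some p ∧ x ∈ p

/-- `B` arises from `A` by permuting rows, permuting columns and relabelling symbols. -/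
def Iso {r : ℕ} (A B : Arr r) : Prop :=
  ∃ (ρ κ : Equiv.Perm (Fin r)) (σ : Equiv.Perm (Fin (r + 1))),
    ∀ i j, B i j = (A (ρ i) (κ j)).map (Sym2.map σ)

/-- Cell `(i, i)` contains `{0, i}` for `1 ≤ i ≤ r`. -/
def Standardized {r : ℕ} (A : Arr r) : Prop := ∀ i, A i i = some s(0, i.succ)

/-- For every `i ≠ j` exactly one of `A`, `B` occupies cell `(i, j)`. -/
def Complementary {r : ℕ} (A B : Arr r) : Prop :=
  ∀ i j, i ≠ j → ((A i j).isSome ↔ ¬ (B i j).isSome)

/-- `A` is isomorphic to a standardized Room square that has a complementary standardized Room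
square. -/
def HasComplement {r : ℕ} (A : Arr r) : Prop :=
  ∃ B C : Arr r, IsRoom B ∧ Standardized B ∧ IsRoom C ∧ Standardized C ∧ Iso A B ∧
    Complementary B C

/-- `A` is a skew (standardized) Room square: for every `i ≠ j` exactly one of the cells
`(i, j)` and `(j, i)` is occupied. -/
def Skew {r : ℕ} (A : Arr r) : Prop :=
  IsRoom A ∧ Standardized A ∧ ∀ i j, i ≠ j → ((A i j).isSome ↔ ¬ (A j i).isSome)

/-- `A` is an embedded (standardized) Room square: there are orthogonal Latin squares `L`, `M` on
`{1, …, r}` (the symbol `i` of the problem is the element `i - 1` of `Fin r`) with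
`L i i = M i i = i`, and the pair of `A` in an occupied off-diagonal cell is `{L i j, M i j}`. -/
def Embedded {r : ℕ} (A : Arr r) : Prop :=
  IsRoom A ∧ Standardized A ∧ ∃ L M : Fin r → Fin r → Fin r,
    (∀ i, Function.Injective (L i)) ∧ (∀ j, Function.Injective fun i => L i j) ∧
    (∀ i, Function.Injective (M i)) ∧ (∀ j, Function.Injective fun i => M i j) ∧
    (Function.Injective fun c : Fin r × Fin r => (L c.1 c.2, M c.1 c.2)) ∧
    (∀ i, L i i = i ∧ M i i = i) ∧
    ∀ i j, i ≠ j → ∀ p, A i j = some p → p = s((L i j).succ, (M i j).succ)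

end Pool.Agent.T6.H3.Room
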