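import Pool.Agent.T6.H3.Room.Defs

/-!
# Gluing Room squares along a pairwise balanced design
-/

set_option autoImplicit false

namespace Pool.Agent.T6.H3.Room

/-- A family of blocks of size `k` in `Fin N`, given by injections, such that any two points lie
in exactly one block. -/
structure Design (k N : ℕ) where
  β : Type
  φ : β → Fin k → Fin N
  inj : ∀ b, Function.Injective (φ b)
  cov : ∀ i j : Fin N, i ≠ j → ∃ b s t, φ b s = i ∧ φ b t = j
  uniq : ∀ b b' s t s' t', φ b s = φ b' s' → φ b t = φ b' t' → s ≠ t → b = b'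

variable {k N : ℕ}

/-- The map of the symbols. -/
def lf (f : Fin k → Fin N) : Fin (k + 1) → Fin (N + 1) := Fin.cases 0 fun u => (f u).succ

@[simp] theorem lf_zero (f : Fin k → Fin N) : lf f 0 = 0 := rfl

@[simp] theorem lf_succ (f : Fin k → Fin N) (u : Fin k) : lf f u.succ = (f u).succ := rfl

theorem lf_inj {f : Fin k → Fin N} (hf : Function.Injective f) : Function.Injective (lf f) := by
  intro a b
  refine Fin.cases ?_ (fun u => ?_) a
  · refine Fin.cases ?_ (fun w => ?_) b
    · intro _; rfl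
    · intro h
      rw [lf_zero, lf_succ] at h
      exact absurd h.symm (Fin.succ_ne_zero _)
  · refine Fin.cases ?_ (fun w => ?_) b
    · intro h
      rw [lf_zero, lf_succ] at h
      exact absurd h (Fin.succ_ne_zero _)
    · intro h
      rw [lf_succ, lf_succ] at h
      rw [hf (Fin.succ_injective _ h)]

namespace Design

variable (D : Design k N)

/-- the data of a pair of points -/
theorem exists_data (i j : Fin N) (h : i ≠ j) : ∃ d : D.β × Fin k × Fin k,
    D.φ d.1 d.2.1 = i ∧ D.φ d.1 d.2.2 = j := by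
  obtain ⟨b, s, t, h1, h2⟩ := D.cov i j h
  exact ⟨(b, s, t), h1, h2⟩

open Classical in
/-- The glued square. -/
noncomputable def glue (A : Arr k) : Arr N := fun i j =>
  if h : i = j then some s(0, i.succ)
  else (A (D.exists_data i j h).choose.2.1 (D.exists_data i j h).choose.2.2).map
    (Sym2.map (lf (D.φ (D.exists_data i j h).choose.1)))

variable {A B : Arr k}

theorem glue_apply (hA : Standardized A) (b : D.β) (s t : Fin k) :
    D.glue A (D.φ b s) (D.φ b t) = (A s t).map (Sym2.map (lf (D.φ b))) := by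
  unfold glue
  split_ifs with h
  · have hst : s = t := D.inj b h
    subst hst
    rw [hA s]
    simp
  · have hd := (D.exists_data _ _ h).choose_spec
    generalize (D.exists_data _ _ h).choose = d at hd ⊢
    obtain ⟨b', s', t'⟩ := d
    obtain ⟨h1, h2⟩ := hd
    simp only at h1 h2 ⊢
    have hst : s' ≠ t' := by
      rintro rfl
      exact h (h1.symm.trans h2)
    have hb : b' = b := D.uniq b' b s' t' s t h1 h2 hst
    subst hb
    rw [D.inj b' h1, D.inj b' h2]

theorem glue_std : Standardized (D.glue A) := by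
  intro i
  unfold glue
  rw [dif_pos rfl]

/-- every point is in a block. -/
theorem exists_block (hN : 2 ≤ N) (i : Fin N) : ∃ b s, D.φ b s = i := by
  have : Nontrivial (Fin N) := Fin.nontrivial_iff_two_le.2 hN
  obtain ⟨j, hj⟩ := exists_ne i
  obtain ⟨b, s, t, h1, h2⟩ := D.cov i j hj.symm
  exact ⟨b, s, h1⟩

theorem exists_block2 (hN : 2 ≤ N) (i j : Fin N) : ∃ b s t, D.φ b s = i ∧ D.φ b t = j := by
  by_cases h : i = j
  · obtain ⟨b, s, hs⟩ := D.exists_block hN i
    exact ⟨b, s, s, hs, hs.trans h⟩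
  · exact D.cov i j h

/-- a row index and a symbol are in a block. -/
theorem exists_block3 (hN : 2 ≤ N) (i : Fin N) (x : Fin (N + 1)) :
    ∃ b s u, D.φ b s = i ∧ lf (D.φ b) u = x := by
  refine Fin.cases ?_ (fun v => ?_) x
  · obtain ⟨b, s, hs⟩ := D.exists_block hN i
    exact ⟨b, s, 0, hs, rfl⟩
  · obtain ⟨b, s, t, hs, ht⟩ := D.exists_block2 hN i v
    exact ⟨b, s, t.succ, hs, by rw [lf_succ, ht]⟩

theorem mem_map {f : Fin k → Fin N} (_hf : Function.Injective f) {q : Option (Sym2 (Fin (k + 1)))}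
    {x : Fin (N + 1)} :
    (∃ p, q.map (Sym2.map (lf f)) = some p ∧ x ∈ p) ↔ ∃ u p, q = some p ∧ u ∈ p ∧ lf f u = x := by
  constructor
  · rintro ⟨p, h, hx⟩
    obtain ⟨p', rfl, rfl⟩ := Option.map_eq_some_iff.1 h
    obtain ⟨u, hu, rfl⟩ := Sym2.mem_map.1 hx
    exact ⟨u, p', rfl, hu, rfl⟩
  · rintro ⟨u, p, rfl, hu, rfl⟩
    exact ⟨_, rfl, Sym2.mem_map.2 ⟨u, hu, rfl⟩⟩

/-- Lines: a cell, row `i`, with a symbol. The symbol has one place in a row. -/
theorem row_uniq (hN : 2 ≤ N) (hA : Standardized A)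
    (hrow : ∀ (i : Fin k) (x : Fin (k + 1)), ∃! j, ∃ p, A i j = some p ∧ x ∈ p)
    (i : Fin N) (x : Fin (N + 1)) : ∃! j, ∃ p, D.glue A i j = some p ∧ x ∈ p := by
  obtain ⟨b, s, u, rfl, rfl⟩ := D.exists_block3 hN i x
  obtain ⟨t, ⟨p, hp, hu⟩, ht⟩ := hrow s u
  refine ⟨D.φ b t, ?_, ?_⟩
  · change ∃ p, D.glue A (D.φ b s) (D.φ b t) = some p ∧ lf (D.φ b) u ∈ p
    rw [D.glue_apply hA, mem_map (D.inj b)]
    exact ⟨u, p, hp, hu, rfl⟩
  · intro j hj
    change ∃ p, D.glue A (D.φ b s) j = some p ∧ lf (D.φ b) u ∈ p at hj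
    obtain ⟨b', s', t', hs', rfl⟩ := D.exists_block2 hN (D.φ b s) j
    rw [← hs', D.glue_apply hA, mem_map (D.inj b')] at hj
    obtain ⟨u', p', hp', hu', hl⟩ := hj
    -- diagonal case in the block `b'`
    by_cases hd : ∃ q, A s s = some q ∧ u ∈ q
    · have hts : t = s := (ht s hd).symm
      rw [hts]
      obtain ⟨q, hq, huq⟩ := hd
      rw [hA s] at hq
      obtain rfl := Option.some.inj hq
      have hd' : ∃ q, A s' s' = some q ∧ u' ∈ q := by
        refine ⟨_, hA s', ?_⟩
        rcases Sym2.mem_iff.1 huq with h | h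
        · rw [h, lf_zero] at hl
          have : u' = 0 := by
            have h0 : lf (D.φ b') u' = lf (D.φ b') 0 := by rw [hl, lf_zero]
            exact lf_inj (D.inj b') h0
          rw [this]
          exact Sym2.mem_mk_left _ _
        · rw [h, lf_succ, ← hs'] at hl
          have : u' = s'.succ := by
            have h0 : lf (D.φ b') u' = lf (D.φ b') s'.succ := by rw [hl, lf_succ]
            exact lf_inj (D.inj b') h0
          rw [this]
          exact Sym2.mem_mk_right _ _
      have h3 : t' = s' := (hrow s' u').unique ⟨p', hp', hu'⟩ hd'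
      rw [h3, hs']
    · -- the symbol is a point different from `s`
      have hu0 : u ≠ 0 := by
        rintro rfl
        exact hd ⟨_, hA s, Sym2.mem_mk_left _ _⟩
      obtain ⟨w, rfl⟩ := Fin.exists_succ_eq.2 hu0
      have hws : s ≠ w := by
        rintro rfl
        exact hd ⟨_, hA s, Sym2.mem_mk_right _ _⟩
      have hu0' : u' ≠ 0 := by
        rintro rfl
        rw [lf_zero, lf_succ] at hl
        exact absurd hl.symm (Fin.succ_ne_zero _)
      obtain ⟨w', rfl⟩ := Fin.exists_succ_eq.2 hu0'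
      rw [lf_succ, lf_succ] at hl
      have hl' := Fin.succ_injective _ hl
      have hb : b = b' := D.uniq b b' s w s' w' hs'.symm hl'.symm hws
      subst hb
      have e1 := D.inj b hs'
      have e2 := D.inj b hl'
      subst e1 e2
      rw [ht t' ⟨p', hp', hu'⟩]

/-- the transposed array -/
def tr {r : ℕ} (A : Arr r) : Arr r := fun i j => A j i

theorem tr_std {r : ℕ} {A : Arr r} (hA : Standardized A) : Standardized (tr A) := fun i => hA i

theorem glue_tr (hN : 2 ≤ N) (hA : Standardized A) (i j : Fin N) :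
    D.glue (tr A) i j = D.glue A j i := by
  obtain ⟨b, s, t, rfl, rfl⟩ := D.exists_block2 hN i j
  rw [D.glue_apply hA, D.glue_apply (tr_std hA)]
  rfl

/-- The glued square is a Room square. -/
theorem glue_room (hN : 2 ≤ N) (hodd : Odd N) (hA : Standardized A) (hR : IsRoom A) :
    IsRoom (D.glue A) where
  odd := hodd
  distinct := by
    intro i j p hp
    obtain ⟨b, s, t, rfl, rfl⟩ := D.exists_block2 hN i j
    rw [D.glue_apply hA] at hp
    obtain ⟨q, hq, rfl⟩ := Option.map_eq_some_iff.1 hp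
    have h1 := hR.distinct s t q hq
    induction q using Sym2.ind with
    | h x y =>
      rw [Sym2.map_mk, Sym2.mk_isDiag_iff]
      rw [Sym2.mk_isDiag_iff] at h1
      exact fun h => h1 (lf_inj (D.inj b) h)
  pair := by
    have key : ∀ x y : Fin (N + 1), x ≠ y → ∃ b u w, lf (D.φ b) u = x ∧ lf (D.φ b) w = y := by
      intro x y hxy
      rcases Fin.eq_zero_or_eq_succ x with rfl | ⟨x, rfl⟩
      · rcases Fin.eq_zero_or_eq_succ y with rfl | ⟨y, rfl⟩
        · exact absurd rfl hxy
        · obtain ⟨b, s, hs⟩ := D.exists_block hN y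
          exact ⟨b, 0, s.succ, rfl, by rw [lf_succ, hs]⟩
      · rcases Fin.eq_zero_or_eq_succ y with rfl | ⟨y, rfl⟩
        · obtain ⟨b, s, hs⟩ := D.exists_block hN x
          exact ⟨b, s.succ, 0, by rw [lf_succ, hs], rfl⟩
        · obtain ⟨b, s, t, hs, ht⟩ := D.exists_block2 hN x y
          exact ⟨b, s.succ, t.succ, by rw [lf_succ, hs], by rw [lf_succ, ht]⟩
    intro x y hxy
    obtain ⟨b, u, w, rfl, rfl⟩ := key x y hxy
    have huw : u ≠ w := by
      rintro rfl
      exact hxy rfl
    obtain ⟨⟨s, t⟩, hst, huniq⟩ := hR.pair u w huw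
    simp only at hst huniq
    refine ⟨(D.φ b s, D.φ b t), ?_, ?_⟩
    · simp only
      rw [D.glue_apply hA, hst]
      simp
    · rintro ⟨i, j⟩ hij
      simp only at hij
      obtain ⟨b', s', t', rfl, rfl⟩ := D.exists_block2 hN i j
      rw [D.glue_apply hA] at hij
      obtain ⟨q, hq, hq2⟩ := Option.map_eq_some_iff.1 hij
      -- the two symbols are in the block `b'`
      have hu : lf (D.φ b) u ∈ Sym2.map (lf (D.φ b')) q := by
        rw [hq2]
        exact Sym2.mem_mk_left _ _
      have hw : lf (D.φ b) w ∈ Sym2.map (lf (D.φ b')) q := by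
        rw [hq2]
        exact Sym2.mem_mk_right _ _
      obtain ⟨u', hu', hu2⟩ := Sym2.mem_map.1 hu
      obtain ⟨w', hw', hw2⟩ := Sym2.mem_map.1 hw
      have huw' : u' ≠ w' := by
        rintro rfl
        exact huw (lf_inj (D.inj b) (hu2.symm.trans hw2))
      have hqq : q = s(u', w') := (Sym2.mem_and_mem_iff huw').1 ⟨hu', hw'⟩
      by_cases h0 : u ≠ 0 ∧ w ≠ 0
      · obtain ⟨a, rfl⟩ := Fin.exists_succ_eq.2 h0.1
        obtain ⟨c, rfl⟩ := Fin.exists_succ_eq.2 h0.2
        have hu0' : u' ≠ 0 := by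
          rintro rfl
          rw [lf_zero, lf_succ] at hu2
          exact absurd hu2.symm (Fin.succ_ne_zero _)
        have hw0' : w' ≠ 0 := by
          rintro rfl
          rw [lf_zero, lf_succ] at hw2
          exact absurd hw2.symm (Fin.succ_ne_zero _)
        obtain ⟨a', rfl⟩ := Fin.exists_succ_eq.2 hu0'
        obtain ⟨c', rfl⟩ := Fin.exists_succ_eq.2 hw0'
        rw [lf_succ, lf_succ] at hu2 hw2
        have ea := Fin.succ_injective _ hu2
        have ec := Fin.succ_injective _ hw2
        have hb : b' = b := D.uniq b' b a' c' a c ea ec (fun h => huw' (by rw [h]))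
        subst hb
        have e1 := D.inj b' ea
        have e2 := D.inj b' ec
        subst e1 e2
        have h4 := huniq (s', t') (by rw [hq, hqq])
        rw [Prod.mk.injEq] at h4
        rw [h4.1, h4.2]
      · -- one of the symbols is `0`
        have hdiag : ∀ (b : D.β) (u w : Fin (k + 1)) (s t : Fin k), u ≠ w → (u = 0 ∨ w = 0) →
            A s t = some s(u, w) → s = t ∧ s(lf (D.φ b) u, lf (D.φ b) w) =
              s(0, (D.φ b s).succ) := by
          intro b u w s t huw h0 hst
          have hs0 : (0 : Fin (k + 1)) ∈ s(u, w) := by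
            rcases h0 with rfl | rfl
            · exact Sym2.mem_mk_left _ _
            · exact Sym2.mem_mk_right _ _
          have e : t = s := (hR.row s 0).unique ⟨_, hst, hs0⟩ ⟨_, hA s, Sym2.mem_mk_left _ _⟩
          subst e
          refine ⟨rfl, ?_⟩
          rw [hA t] at hst
          have h5 := Option.some.inj hst
          have h6 := congrArg (Sym2.map (lf (D.φ b))) h5
          rw [Sym2.map_mk, Sym2.map_mk, lf_zero, lf_succ] at h6
          exact h6.symm
        have h0' : u = 0 ∨ w = 0 := by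
          by_contra hcon
          push Not at hcon
          exact h0 hcon
        have h0'' : u' = 0 ∨ w' = 0 := by
          rcases h0' with rfl | rfl
          · left
            exact lf_inj (D.inj b') (by rw [hu2, lf_zero, lf_zero])
          · right
            exact lf_inj (D.inj b') (by rw [hw2, lf_zero, lf_zero])
        obtain ⟨e1, e2⟩ := hdiag b u w s t huw h0' hst
        obtain ⟨e3, e4⟩ := hdiag b' u' w' s' t' huw' h0'' (by rw [hq, hqq])
        rw [hu2, hw2, e2] at e4
        have e5 : (D.φ b s).succ = (D.φ b' s').succ := by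
          rcases Sym2.eq_iff.1 e4 with h | h
          · exact h.2
          · exact absurd h.1.symm (Fin.succ_ne_zero _)
        have e6 := Fin.succ_injective _ e5
        rw [← e1, ← e3, e6]
  row := D.row_uniq hN hA hR.row
  col := by
    intro j x
    have h := D.row_uniq hN (tr_std hA) (fun i x => hR.col i x) j x
    simp only [D.glue_tr hN hA] at h
    exact h

theorem glue_compl (hN : 2 ≤ N) (hA : Standardized A) (hB : Standardized B)
    (h : Complementary A B) : Complementary (D.glue A) (D.glue B) := by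
  intro i j hij
  obtain ⟨b, s, t, rfl, rfl⟩ := D.exists_block2 hN i j
  rw [D.glue_apply hA, D.glue_apply hB, Option.isSome_map, Option.isSome_map]
  exact h s t (fun e => hij (by rw [e]))

end Design

/-- `A` violates the skewness in the standardization by the symbol `x`. -/
def NonSkewAt {r : ℕ} (A : Arr r) (x : Fin (r + 1)) : Prop :=
  ∃ i j ci cj, i ≠ j ∧ (∃ p, A i ci = some p ∧ x ∈ p) ∧ (∃ p, A j cj = some p ∧ x ∈ p) ∧
    ((A i cj).isSome ↔ (A j ci).isSome)

theorem not_iso_skew {r : ℕ} {A : Arr r} (hA : IsRoom A) (h : ∀ x, NonSkewAt A x) :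
    ¬ ∃ B : Arr r, Skew B ∧ Iso A B := by
  rintro ⟨B, ⟨_, hstd, hsk⟩, ρ, κ, σ, hB⟩
  obtain ⟨i, j, ci, cj, hij, hi, hj, hiff⟩ := h (σ.symm 0)
  have key : ∀ i0 : Fin r, ∃ p, A (ρ i0) (κ i0) = some p ∧ σ.symm 0 ∈ p := by
    intro i0
    have h1 := hB i0 i0
    rw [hstd i0] at h1
    obtain ⟨p, hp, hp2⟩ := Option.map_eq_some_iff.1 h1.symm
    refine ⟨p, hp, ?_⟩
    have h2 : (0 : Fin (r + 1)) ∈ Sym2.map σ p := by
      rw [hp2]
      exact Sym2.mem_mk_left _ _
    obtain ⟨u, hu, hu0⟩ := Sym2.mem_map.1 h2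
    rw [← hu0, Equiv.symm_apply_apply]
    exact hu
  obtain ⟨i0, rfl⟩ := ρ.surjective i
  obtain ⟨j0, rfl⟩ := ρ.surjective j
  have e1 : κ i0 = ci := (hA.row _ _).unique (key i0) hi
  have e2 : κ j0 = cj := (hA.row _ _).unique (key j0) hj
  subst e1 e2
  have hne : i0 ≠ j0 := fun e => hij (by rw [e])
  have h3 := hsk i0 j0 hne
  rw [hB, hB, Option.isSome_map, Option.isSome_map] at h3
  by_cases h4 : (A (ρ i0) (κ j0)).isSome = true
  · exact (h3.1 h4) (hiff.1 h4)
  · exact h4 (h3.2 (fun h5 => h4 (hiff.2 h5)))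

theorem Design.glue_nonskew {k N : ℕ} (D : Design k N) {A : Arr k} (hN : 2 ≤ N)
    (hA : Standardized A) (h : ∀ x, NonSkewAt A x) (x : Fin (N + 1)) :
    NonSkewAt (D.glue A) x := by
  obtain ⟨b, s, u, -, rfl⟩ := D.exists_block3 hN ⟨0, by omega⟩ x
  obtain ⟨i, j, ci, cj, hij, hi, hj, hiff⟩ := h u
  refine ⟨D.φ b i, D.φ b j, D.φ b ci, D.φ b cj, fun e => hij (D.inj b e), ?_, ?_, ?_⟩
  · rw [D.glue_apply hA, Design.mem_map (D.inj b)]
    obtain ⟨p, hp, hu⟩ := hi
    exact ⟨u, p, hp, hu, rfl⟩
  · rw [D.glue_apply hA, Design.mem_map (D.inj b)]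
    obtain ⟨p, hp, hu⟩ := hj
    exact ⟨u, p, hp, hu, rfl⟩
  · rw [D.glue_apply hA, D.glue_apply hA, Option.isSome_map, Option.isSome_map]
    exact hiff

end Pool.Agent.T6.H3.Room
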