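import Pool.Agent.T6.H3.Room.Glue

/-!
# The lines of an affine space as a design
-/

set_option autoImplicit false

namespace Pool.Agent.T6.H3.Room

section

variable {F V : Type} [Field F] [AddCommGroup V] [Module F V]

/-- the line through `p` in the direction `d`. -/
def ln (p d : V) : Set V := {x | ∃ t : F, x = p + t • d}

theorem ln_eq {p d : V} (x y : V) (hx : x ∈ ln (F := F) p d) (hy : y ∈ ln (F := F) p d)
    (hxy : x ≠ y) : ln (F := F) p d = ln (F := F) x (y - x) := by
  obtain ⟨s, rfl⟩ := hx
  obtain ⟨t, rfl⟩ := hy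
  have hst : t - s ≠ 0 := by
    intro h
    apply hxy
    rw [sub_eq_zero.1 h]
  ext z
  constructor
  · rintro ⟨u, rfl⟩
    refine ⟨(u - s) / (t - s), ?_⟩
    have h1 : p + t • d - (p + s • d) = (t - s) • d := by
      rw [sub_smul]
      abel
    rw [h1, smul_smul, div_mul_cancel₀ _ hst, sub_smul]
    abel
  · rintro ⟨u, rfl⟩
    refine ⟨s + u * (t - s), ?_⟩
    have h1 : p + t • d - (p + s • d) = (t - s) • d := by
      rw [sub_smul]
      abel
    rw [h1, smul_smul, add_smul]
    abel

/-- The lines. -/
def Ln (F V : Type) [Field F] [AddCommGroup V] [Module F V] : Type :=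
  {L : Set V // ∃ p d : V, d ≠ 0 ∧ L = ln (F := F) p d}

/-- The design of the lines. -/
noncomputable def lineDesign {k N : ℕ} (eF : Fin k ≃ F) (eV : V ≃ Fin N) : Design k N where
  β := Ln F V
  φ L s := eV (L.2.choose + eF s • L.2.choose_spec.choose)
  inj := by
    intro L s t h
    have h1 := eV.injective h
    have hd := L.2.choose_spec.choose_spec.1
    have h2 := add_left_cancel h1
    have h3 : (eF s - eF t) • L.2.choose_spec.choose = 0 := by
      rw [sub_smul, h2, sub_self]
    rcases smul_eq_zero.1 h3 with h4 | h4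
    · exact eF.injective (sub_eq_zero.1 h4)
    · exact absurd h4 hd
  cov := by
    intro i j hij
    have hne : eV.symm j - eV.symm i ≠ 0 := by
      intro h
      exact hij (eV.symm.injective (sub_eq_zero.1 h).symm)
    let L : Ln F V := ⟨ln (F := F) (eV.symm i) (eV.symm j - eV.symm i), _, _, hne, rfl⟩
    have hL : L.1 = ln (F := F) L.2.choose L.2.choose_spec.choose :=
      L.2.choose_spec.choose_spec.2
    have hi : eV.symm i ∈ L.1 := ⟨0, by rw [zero_smul, add_zero]⟩
    have hj : eV.symm j ∈ L.1 := ⟨1, by rw [one_smul, add_sub_cancel]⟩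
    rw [hL] at hi hj
    obtain ⟨s, hs⟩ := hi
    obtain ⟨t, ht⟩ := hj
    refine ⟨L, eF.symm s, eF.symm t, ?_, ?_⟩
    · rw [Equiv.apply_symm_apply, ← hs, Equiv.apply_symm_apply]
    · rw [Equiv.apply_symm_apply, ← ht, Equiv.apply_symm_apply]
  uniq := by
    intro L L' s t s' t' h1 h2 hst
    have e1 := eV.injective h1
    have e2 := eV.injective h2
    have hL := L.2.choose_spec.choose_spec.2
    have hL' := L'.2.choose_spec.choose_spec.2
    have hd := L.2.choose_spec.choose_spec.1
    have hne : L.2.choose + eF s • L.2.choose_spec.choose ≠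
        L.2.choose + eF t • L.2.choose_spec.choose := by
      intro h
      have h2 := add_left_cancel h
      have h3 : (eF s - eF t) • L.2.choose_spec.choose = 0 := by
        rw [sub_smul, h2, sub_self]
      rcases smul_eq_zero.1 h3 with h4 | h4
      · exact hst (eF.injective (sub_eq_zero.1 h4))
      · exact hd h4
    have h3 := ln_eq (F := F) (L.2.choose + eF s • L.2.choose_spec.choose)
      (L.2.choose + eF t • L.2.choose_spec.choose) ⟨_, rfl⟩ ⟨_, rfl⟩ hne
    have h4 := ln_eq (F := F) (p := L'.2.choose) (d := L'.2.choose_spec.choose)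
      (L.2.choose + eF s • L.2.choose_spec.choose)
      (L.2.choose + eF t • L.2.choose_spec.choose) ⟨_, e1⟩ ⟨_, e2⟩ hne
    apply Subtype.ext
    rw [hL, hL', h3, h4]

end

/-- For every `n` there is a design with `9 ^ n` points and blocks of size `9`. -/
theorem exists_design (n : ℕ) : Nonempty (Design 9 (9 ^ n)) := by
  have : Fact (Nat.Prime 3) := ⟨Nat.prime_three⟩
  let F := GaloisField 3 2
  have : Finite F := inferInstance
  have hF : Nat.card F = 9 := by
    rw [GaloisField.card 3 2 (by norm_num)]
    norm_num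
  have hV : Nat.card (Fin n → F) = 9 ^ n := by
    rw [Nat.card_fun, hF, Nat.card_eq_fintype_card, Fintype.card_fin]
  exact ⟨lineDesign (F := F) (V := Fin n → F) (Finite.equivFinOfCardEq hF).symm
    (Finite.equivFinOfCardEq hV)⟩

end Pool.Agent.T6.H3.Room
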