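import Pool.Agent.T6.H3.Room.Base
import Pool.Agent.T6.H3.Room.Lines

/-!
# Room squares with a complement which are not isomorphic to skew Room squares

There is one of side `9`, and one of every side `9 ^ n`, `n ≥ 1`.
-/

set_option autoImplicit false

namespace Pool.Agent.T6.H3.Room.NotSkew

open Pool.Agent.T6.H3.Room

/-- a Room square which has a complement and is not isomorphic to a skew Room square. -/
def Example {r : ℕ} (A : Arr r) : Prop :=
  IsRoom A ∧ HasComplement A ∧ ¬ ∃ B : Arr r, Skew B ∧ Iso A B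

theorem example_nine_pow (n : ℕ) (hn : 1 ≤ n) : ∃ A : Arr (9 ^ n), Example A := by
  obtain ⟨D⟩ := exists_design n
  have hN : 2 ≤ 9 ^ n := by
    calc 2 ≤ 9 ^ 1 := by norm_num
      _ ≤ 9 ^ n := Nat.pow_le_pow_right (by norm_num) hn
  have hodd : Odd (9 ^ n) := Odd.pow (by decide)
  have hroom := D.glue_room hN hodd std_A room_A
  have hroomC := D.glue_room hN hodd std_C room_C
  refine ⟨D.glue sqA, hroom, ?_, ?_⟩
  · refine ⟨D.glue sqA, D.glue sqC, hroom, D.glue_std, hroomC, D.glue_std, ?_,
      D.glue_compl hN std_A std_C compl_AC⟩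
    refine ⟨Equiv.refl _, Equiv.refl _, Equiv.refl _, fun i j => ?_⟩
    have h : (Sym2.map (Equiv.refl (Fin (9 ^ n + 1)))) = id := by
      rw [Equiv.coe_refl, Sym2.map_id]
    rw [h]
    simp
  · exact not_iso_skew hroom (D.glue_nonskew hN std_A nonskew_A)

/-- **Room squares with complements which are not skew.** For every `n ≥ 1` there is a Room square
of side `9 ^ n` which has a complement and is not isomorphic to any skew Room square; in
particular there are infinitely many pairwise non-isomorphic ones (one for each of these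
sides). -/
theorem not_skew : (∀ n : ℕ, 1 ≤ n → ∃ A : Arr (9 ^ n), IsRoom A ∧ HasComplement A ∧
      ¬ ∃ B : Arr (9 ^ n), Skew B ∧ Iso A B) ∧
    {r : ℕ | ∃ A : Arr r, IsRoom A ∧ HasComplement A ∧ ¬ ∃ B : Arr r, Skew B ∧ Iso A B}.Infinite := by
  refine ⟨example_nine_pow, ?_⟩
  refine Set.infinite_of_injective_forall_mem (f := fun n : ℕ => 9 ^ (n + 1)) ?_ ?_
  · intro a b h
    exact Nat.succ_injective (Nat.pow_right_injective (by norm_num : 2 ≤ 9) h)
  · intro n
    exact example_nine_pow (n + 1) (Nat.succ_pos n)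

end Pool.Agent.T6.H3.Room.NotSkew
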